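import Pool.Agent.Q128.ChromDist

/-!
# The chromatic distance between two graphs is at most two

The definitions are those of `Pool.Agent.Results.MP_fbe9f6_co.BipartiteRelated`:

* `IsFreeColoring H F c`: no colour class of the colouring `c` of `H` contains an induced copy
  of `F`.
* `FreeChromaticNumberEq H F k`: `χ(H : -F) = k`.
* `ChromaticallyRelated F G`: `F ≍ G`, for every `l ≥ 2` some finite graph `H` satisfies
  `χ(H : -F) = χ(H : -G) = l` (the case `l = 1` always holds, with one vertex).

If `F` and `G` have an edge, `H` can be taken to be any path with more vertices than `F` and `G`;
if both have a pair of nonadjacent vertices, the complement of such a path; in the remaining case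
one of `F` and `G` is complete and the other edgeless.
-/

set_option autoImplicit false

namespace Pool.Agent.Results.MP_37c966_co.DistanceTwo

open Pool.Agent.Results.MP_fbe9f6_co.BipartiteRelated

universe u v

/-- For all finite graphs `F` and `G` with at least two vertices there is a finite graph `H` with
at least two vertices such that `F ≍ H ≍ G`. -/
theorem result (U : Type u) (V : Type v) [Finite U] [Finite V] [Nontrivial U] [Nontrivial V]
    (F : SimpleGraph U) (G : SimpleGraph V) :
    ∃ (X : Type) (_ : Finite X) (_ : Nontrivial X) (H : SimpleGraph X),
      ChromaticallyRelated F H ∧ ChromaticallyRelated H G :=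
  Pool.Agent.Q128.ChromDist.dist_le_two F G

end Pool.Agent.Results.MP_37c966_co.DistanceTwo
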